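import Mathlib
import Pool.Agent.U623.HA.Unif

/-!
# MP_f3dc73_nt: algebraic relations between multiple zeta values with a common last part

For an admissible word `u` let `ζ(u, a, s)` be the multiple zeta value with the letters of `u` at the largest
variables, then the letter `a`, then the letters of the list `s`. Let `P` be a nonzero polynomial with real
coefficients (for instance in the algebra of multiple zeta values) in variables `X_u`, `u` admissible words of any
weights, of degree at most `D`, `D ≥ 2`. Then `P(ζ(u, a, s)) ≠ 0` for all last parts `a, s` of length `L ≥ n0(P)`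
with `a ≥ L ^ (D + 1)`, and `|P(ζ(u, a, s))| ≥ ζ(a, s) ^ (D + 1)`. For polynomials with integer coefficients in `π`
and the `ζ(u, a, s)`, `n0` depends only on the fronts `u`, `D` and a bound for the coefficients and the degree in
`π`.

The proof: `ζ(u, a, s)` is the sum over the value `L + j` of the variable of `a` of `T_u(L + j)` times a weight, `T_u`
the tail of the series of `u`. For homogeneous `P` the coefficients of the monomials in the first weights are
functions of `L` in the algebra generated by the tails over the rational functions; such a function is `0` for all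
`L` or larger than a power of `1 / L`. Two monomials in the weights differ by the factor
`(∏ (L + j) ^ α_j / ∏ (L + j) ^ β_j) ^ a` with different integers, hence one monomial dominates.
-/

set_option autoImplicit false

namespace Pool.Agent.Results.MP_f3dc73_nt.AlgebraicRelationsCommonLastPart

/-- the multiple zeta value of the list `l`; the first entry belongs to the largest summation variable: in the
notation of the problem `mzv [n_m, …, n_1] = ζ(n_1, …, n_m)` -/
noncomputable def mzv (l : List ℕ) : ℝ :=
  ∑' m : {m : Fin l.length → ℕ // StrictAnti m ∧ ∀ i, 0 < m i}, ∏ i, ((m.1 i : ℝ) ^ (l.get i))⁻¹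

/-- the letters are positive and the first letter (if there is one) is at least two -/
def Admissible (u : List ℕ) : Prop := (∀ x ∈ u, 1 ≤ x) ∧ ∀ x ∈ u.head?, 2 ≤ x

lemma adm_iff {u : List ℕ} (h : Admissible u) : Pool.Agent.H447R2.MZ.Adm u := by
  refine ⟨h.1, fun a t hu => h.2 a ?_⟩
  rw [hu]
  rfl

lemma mzv_eq {l : List ℕ} (hl : Pool.Agent.H447R2.MZ.Adm l) : mzv l = Pool.Agent.H447R2.MZ.val l := by
  have h1 := Pool.Agent.H447R2.MZ.hasSum_val l.length l.get (by rw [List.ofFn_get]; exact hl)
  rw [List.ofFn_get] at h1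
  exact h1.tsum_eq

lemma words_RA (u : {u : List ℕ // Admissible u}) : Pool.Agent.U623.HF.RA u.1.reverse := by
  unfold Pool.Agent.U623.HF.RA
  rw [List.reverse_reverse]
  exact adm_iff u.2

lemma words_inj : Function.Injective fun u : {u : List ℕ // Admissible u} => u.1.reverse := fun _ _ h =>
  Subtype.ext (List.reverse_injective h)

lemma values_eq {a : ℕ} {s : List ℕ} (ha : 2 ≤ a) (hs : ∀ x ∈ s, 1 ≤ x) :
    (fun u : {u : List ℕ // Admissible u} => mzv (u.1 ++ a :: s)) =
      fun u => Pool.Agent.H447R2.MZ.val (u.1.reverse.reverse ++ a :: s) := by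
  funext u
  rw [List.reverse_reverse]
  exact mzv_eq (Pool.Agent.U623.HA.adm_app' (adm_iff u.2) ha hs)

lemma last_eq {a : ℕ} {s : List ℕ} (ha : 2 ≤ a) (hs : ∀ x ∈ s, 1 ≤ x) :
    mzv (a :: s) = Pool.Agent.H447R2.MZ.val (a :: s) := by
  have hnil : Pool.Agent.H447R2.MZ.Adm ([] : List ℕ) := ⟨by simp, by simp⟩
  have h := Pool.Agent.U623.HA.adm_app' hnil ha hs
  rw [List.nil_append] at h
  exact mzv_eq h

lemma two_le {D a : ℕ} {s : List ℕ} (hn : 2 ≤ s.length + 1) (ha : (s.length + 1) ^ (D + 1) ≤ a) : 2 ≤ a := by
  have h1 : (s.length + 1) ^ 1 ≤ (s.length + 1) ^ (D + 1) := Nat.pow_le_pow_right (by omega) (by omega)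
  rw [pow_one] at h1
  omega

/-- **Theorem.** Let `D ≥ 2`.
(1) For every nonzero real polynomial `P` of total degree at most `D` in variables `X_u`, `u` admissible words,
there is `n0` such that for all `a` and all lists `s` of positive integers for which the length `L` of `a :: s` is
at least `n0` and `a ≥ L ^ (D + 1)`: `|P(ζ(u, a, s))| ≥ ζ(a, s) ^ (D + 1) > 0`.
(2) For every finite set `U` of admissible words and every `h` there is `n0` such that this holds for all nonzero
polynomials `P` of total degree at most `D` in the `X_u`, `u ∈ U`, whose coefficients are the values at `π` of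
polynomials in `ℤ[X]` of degree at most `h` with coefficients at most `h` in absolute value (`P` nonzero as a
polynomial over `ℤ[X]`). -/
theorem result (D : ℕ) (hD : 2 ≤ D) :
    (∀ P : MvPolynomial {u : List ℕ // Admissible u} ℝ, P ≠ 0 → P.totalDegree ≤ D →
      ∃ n0 : ℕ, ∀ (a : ℕ) (s : List ℕ), (∀ x ∈ s, 1 ≤ x) → n0 ≤ (a :: s).length →
        (a :: s).length ^ (D + 1) ≤ a →
          0 < mzv (a :: s) ∧
          mzv (a :: s) ^ (D + 1) ≤ |MvPolynomial.eval (fun u => mzv (u.1 ++ a :: s)) P|) ∧
    (∀ (U : Finset {u : List ℕ // Admissible u}) (h : ℕ), ∃ n0 : ℕ,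
      ∀ P : MvPolynomial {u : List ℕ // Admissible u} (Polynomial ℤ), P ≠ 0 → P.vars ⊆ U →
        P.totalDegree ≤ D → (∀ m, (P.coeff m).natDegree ≤ h ∧ ∀ i, |(P.coeff m).coeff i| ≤ h) →
        ∀ (a : ℕ) (s : List ℕ), (∀ x ∈ s, 1 ≤ x) → n0 ≤ (a :: s).length →
          (a :: s).length ^ (D + 1) ≤ a →
            0 < mzv (a :: s) ∧
            mzv (a :: s) ^ (D + 1) ≤ |MvPolynomial.eval (fun u => mzv (u.1 ++ a :: s))
              (MvPolynomial.map (Polynomial.aeval Real.pi : Polynomial ℤ →ₐ[ℤ] ℝ).toRingHom P)|) := by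
  constructor
  · intro P hP hPD
    obtain ⟨n0, h⟩ := Pool.Agent.U623.HA.gen (fun u : {u : List ℕ // Admissible u} => u.1.reverse)
      words_RA words_inj hD P hPD hP
    refine ⟨max n0 2, fun a s hs hn ha => ?_⟩
    rw [List.length_cons] at hn ha
    have ha2 := two_le ((le_max_right _ _).trans hn) ha
    rw [values_eq ha2 hs, last_eq ha2 hs]
    exact h a s hs ((le_max_left _ _).trans hn) ha
  · intro U h
    obtain ⟨n0, h1⟩ := Pool.Agent.U623.HA.unif (fun u : {u : List ℕ // Admissible u} => u.1.reverse)
      words_RA words_inj hD U h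
    refine ⟨max n0 2, fun P hP hPU hPD hPh a s hs hn ha => ?_⟩
    rw [List.length_cons] at hn ha
    have ha2 := two_le ((le_max_right _ _).trans hn) ha
    have hnil : Pool.Agent.H447R2.MZ.Adm ([] : List ℕ) := ⟨by simp, by simp⟩
    have hadm := Pool.Agent.U623.HA.adm_app' hnil ha2 hs
    rw [List.nil_append] at hadm
    rw [values_eq ha2 hs, last_eq ha2 hs]
    exact ⟨lt_of_lt_of_le (Pool.Agent.U623.HF.H_pos _ _ le_rfl) (Pool.Agent.H447R2.MZ.H_le_val _ hadm _),
      h1 P hP hPU hPD hPh a s hs ((le_max_left _ _).trans hn) ha⟩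

end Pool.Agent.Results.MP_f3dc73_nt.AlgebraicRelationsCommonLastPart
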