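import Pool.Agent.U553.HY.Free
import Pool.Agent.U553.HY.Dims

/-!
# MP_f3dc73_nt: the algebra of multiple zeta values is free over the constants on the growing patterns, off few hyperplanes

A pattern in `k` variables is a list of letters `b + u_1 s_1 + ... + u_k s_k` with natural numbers `b`, `u_j`; at a tuple `s`
of natural numbers it gives an index. Letters can be added, and patterns have a stuffle product. A pattern is growing if it
is empty or if its first letter is not constant. For a scale `N` we consider the tuples `s` with `2 ≤ s_j ≤ κ N` for which in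
each of the patterns the first letter which is not constant is at least `N`; the later letters may be small. Few hyperplanes:
at most `K` hyperplanes `∑ b_j s_j = c` with integers `c` and `b_j`, not all zero, `|b_j| ≤ K`.

Theorem.
(1) Let `v_1, ..., v_m` be different growing patterns. For arbitrary complex numbers `x_1, ..., x_t` and all `C` the numbers
`ζ(v_j(s))` are linearly independent over the space `ℚ x_1 + ... + ℚ x_t`, for coefficients `∑_i ρ_ji x_i` with integers
`|ρ_ji| ≤ C ^ N`, off few hyperplanes; `K` depends only on the patterns, `κ` and `t`, not on the `x_i`, `C` and `N`. For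
example the `x_i` may span the space of all multiple zeta values of weight at most `W`, or of all products of these with
powers of `e` and `log 2`.
(2) Let `Λ` be a finite set of admissible patterns, whose first letters may be constant. Off few hyperplanes each relation
`∑ c_w ζ(w(s)) = 0` with integers `|c_w| ≤ C ^ N` is a consequence of relations between constants: there is a formal
identity `∑ c_w w = ∑_v (∑_u ρ(u, v) u) * v` in the stuffle algebra of patterns, with constant indices `u` (initial segments of
the constant letters in front of the `w ∈ Λ`) and growing patterns `v`, such that `∑_u ρ(u, v) ζ(u) = 0` for all `v`.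
Conversely such a combination gives a relation at ALL tuples. So, up to the height, the kernel of the evaluation at `s` is the
ideal generated by the relations between the constants; polynomial relations are linear relations, by the stuffle product.
(3) For every `n` the `ζ(q)` for the words `q` in `2`, `3` of weight `n` are linearly independent (this is equivalent to Q1, by
the theorems of Brown, Goncharov and Terasoma) if and only if different patterns of the same weight whose constant first
letters are `2` and `3` are linearly independent off few hyperplanes.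

The starting files of this page concern patterns in one variable. Proof: `Pool.Agent.U553.HY`, with `Pool.Agent.X90.DC` and
`Pool.Agent.N665.LP` of the starting library (subspace theorem, elimination of the constants `x_i`, linear independence of the
truncated sums). The first argument belongs to the largest summation variable.
-/

set_option autoImplicit false

namespace Pool.Agent.Results.MP_f3dc73_nt.FreeOverConstants

open Pool.Agent.U553.HY (Range LargeFirst OnHyperplanes OffH NoRel coreW)

/-- `trunc [s_1, ..., s_r] m` is the sum of `∏ n_i ^ (-s_i)` over `m > n_1 > ... > n_r ≥ 1` -/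
noncomputable def trunc : List ℕ → ℕ → ℝ
  | [], _ => 1
  | s :: l, m => ∑ j ∈ Finset.Ico 1 m, trunc l j / (j : ℝ) ^ s

/-- the multiple zeta value `ζ(s_1, ..., s_r)`, the sum of `∏ n_i ^ (-s_i)` over
`n_1 > ... > n_r ≥ 1`; `ζ() = 1` -/
noncomputable def mzv : List ℕ → ℝ
  | [] => 1
  | s :: l => ∑' m : ℕ, trunc l (m + 1) / ((m + 1 : ℕ) : ℝ) ^ s

/-- admissible indices: the empty index and `(s_1, ..., s_r)` with `s_1 ≥ 2` and all `s_i ≥ 1` -/
def Admissible : List ℕ → Prop
  | [] => True
  | s :: l => 2 ≤ s ∧ ∀ t ∈ l, 1 ≤ t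

/-- the letter `(b, u)` stands for `b + ∑ u_j s_j` -/
abbrev Letter (k : ℕ) : Type := ℕ × (Fin k → ℕ)

/-- the index given by a pattern at the tuple `s` -/
def index {k : ℕ} (s : Fin k → ℕ) (w : List (Letter k)) : List ℕ :=
  w.map fun u => u.1 + ∑ j, u.2 j * s j

/-- constant letters are positive, and the first letter is at least two if it is constant -/
def AdmissiblePattern {k : ℕ} (w : List (Letter k)) : Prop :=
  (∀ u ∈ w.head?, u.2 ≠ 0 ∨ 2 ≤ u.1) ∧ ∀ u ∈ w, u.2 ≠ 0 ∨ 1 ≤ u.1

open Classical in
/-- the constant letters in front of the first letter which is not constant -/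
def constantPart {k : ℕ} : List (Letter k) → List ℕ
  | [] => []
  | u :: w => if u.2 = 0 then u.1 :: constantPart w else []

/-- admissible indices, among them the empty index, with their initial segments -/
def FrontSet (Q : Set (List ℕ)) : Prop :=
  [] ∈ Q ∧ (∀ q ∈ Q, Admissible q) ∧ ∀ q ∈ Q, ∀ q', q' <+: q → q' ∈ Q

/-- some letter is not constant -/
def HasVariable {k : ℕ} (w : List (Letter k)) : Prop := ∃ u ∈ w, u.2 ≠ 0

/-- there is no nontrivial linear relation between the values of the patterns at `s` with integer coefficients of absolute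
value at most `B` -/
def Independent {k r : ℕ} (w : Fin r → List (Letter k)) (B : ℝ) (s : Fin k → ℕ) : Prop :=
  ∀ c : Fin r → ℤ, (∀ i, |(c i : ℝ)| ≤ B) → ∑ i, (c i : ℝ) * mzv (index s (w i)) = 0 → c = 0

/-- For all `κ` there is `K` such that for all `C` and all sufficiently large `N` the tuples `s` with `2 ≤ s_j ≤ κ N`, for
which the first letters of the patterns `w_i` which are not constant are at least `N`, and for which `P (C ^ N) s` fails, lie
on at most `K` hyperplanes `∑ b_j s_j = c` with integers `c` and `b_j`, not all zero, `|b_j| ≤ K`. -/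
def OffHyperplanes {k r : ℕ} (w : Fin r → List (Letter k)) (P : ℝ → (Fin k → ℕ) → Prop) : Prop :=
  ∀ κ : ℕ, ∃ K : ℕ, ∀ C : ℝ, ∃ N₀ : ℕ, ∀ N : ℕ, N₀ ≤ N →
    OnHyperplanes K {s : Fin k → ℕ | s ∈ Range w κ N ∧ ¬ P (C ^ N) s}

/-- the indices given by the patterns at a tuple have the same weight -/
def SameWeight {k r : ℕ} (w : Fin r → List (Letter k)) : Prop :=
  ∀ i j (s : Fin k → ℕ), (index s (w i)).sum = (index s (w j)).sum

/-- the words in the letters `2`, `3` -/
def Hoffman : Set (List ℕ) := {q | ∀ a ∈ q, a = 2 ∨ a = 3}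

/-- the pattern is empty or its first letter is not constant -/
def Growing {k : ℕ} (w : List (Letter k)) : Prop := ∀ u ∈ w.head?, u.2 ≠ 0

/-- a constant index as a pattern -/
def fixed {k : ℕ} (p : List ℕ) : List (Letter k) := p.map fun b => (b, 0)

/-- the terms of the stuffle product of two patterns -/
def stuffles {k : ℕ} : List (Letter k) → List (Letter k) → List (List (Letter k))
  | [], v => [v]
  | x :: u, [] => [x :: u]
  | x :: u, y :: v =>
    (stuffles u (y :: v)).map (x :: ·) ++ (stuffles (x :: u) v).map (y :: ·) ++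
      (stuffles u v).map ((x + y) :: ·)
termination_by u v => u.length + v.length

/-- The combination `∑ c_w w` of the patterns in `Λ` is `∑ ρ(u, v) u * v` in the stuffle algebra (the free abelian group on
the patterns), the sum over the pairs `(u, v)` in a finite set `Q`, where `u` is an admissible constant index, an initial
segment of the constant first letters of a pattern in `Λ`, and `v` is an admissible growing pattern, such that for every `v`
the number `∑_u ρ(u, v) ζ(u)` is zero. -/
def InIdeal {k : ℕ} (Λ : Finset (List (Letter k))) (c : List (Letter k) → ℤ) : Prop :=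
  ∃ (Q : Finset (List ℕ × List (Letter k))) (ρ : List ℕ × List (Letter k) → ℤ),
    (∀ p ∈ Q, Admissible p.1 ∧ Growing p.2 ∧ AdmissiblePattern p.2 ∧ ∃ w ∈ Λ, p.1 <+: constantPart w) ∧
    (∀ (A : Type) [AddCommGroup A] (F : List (Letter k) → A),
      ∑ w ∈ Λ, c w • F w = ∑ p ∈ Q, ρ p • ((stuffles (fixed p.1) p.2).map F).sum) ∧
    ∀ v, ∑ p ∈ Q with p.2 = v, (ρ p : ℝ) * mzv p.1 = 0

theorem trunc_eq : ∀ l m, trunc l m = Pool.Agent.Y760.ZG.hr l m := by
  intro l
  induction l with
  | nil => intro m; rw [trunc, Pool.Agent.Y760.ZG.hr]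
  | cons s l ih =>
    intro m
    rw [trunc, Pool.Agent.Y760.ZG.hr]
    exact Finset.sum_congr rfl fun j _ => by rw [ih]

theorem mzv_eq : ∀ l, mzv l = Pool.Agent.Y760.ZG.mz l := by
  intro l
  cases l with
  | nil => rw [mzv, Pool.Agent.Y760.ZG.mz]
  | cons s l =>
    rw [mzv, Pool.Agent.Y760.ZG.mz]
    exact tsum_congr fun k => by rw [trunc_eq]

theorem mzv_fun : mzv = Pool.Agent.Y760.ZG.mz := funext mzv_eq

theorem constantPart_eq {k : ℕ} : ∀ w : List (Letter k), constantPart w = Pool.Agent.X90.DC.fpx w := by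
  intro w
  induction w with
  | nil => rw [constantPart, Pool.Agent.X90.DC.fpx]
  | cons u w ih =>
    rw [constantPart, Pool.Agent.X90.DC.fpx, ih]

theorem adm_iff : ∀ u, Admissible u ↔ (u = [] ∨ Pool.Agent.X90.DB.Ad u) := by
  intro u
  cases u with
  | nil => exact ⟨fun _ => Or.inl rfl, fun _ => trivial⟩
  | cons a l => exact ⟨fun h => Or.inr h, fun h => h.resolve_left (List.cons_ne_nil _ _)⟩

theorem ind_iff {k r : ℕ} (w : Fin r → List (Letter k)) : Independent w = NoRel w := by
  funext B s
  rw [Independent, mzv_fun]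
  rfl

theorem stuffles_eq {k : ℕ} : ∀ u v : List (Letter k), stuffles u v = Pool.Agent.X90.DC.psti u v := by
  intro u v
  induction u, v using Pool.Agent.X90.DC.psti.induct with
  | case1 v => rw [stuffles, Pool.Agent.X90.DC.psti]
  | case2 x u => rw [stuffles, Pool.Agent.X90.DC.psti]
  | case3 x u y v ih1 ih2 ih3 => rw [stuffles, Pool.Agent.X90.DC.psti, ih1, ih2, ih3]

theorem ideal_of {k : ℕ} {Λ : Finset (List (Letter k))} {c : List (Letter k) → ℤ}
    (h : Pool.Agent.U553.HY.Idl Λ c) : InIdeal Λ c := by
  obtain ⟨Q, ρ, h1, h2, h3⟩ := h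
  refine ⟨Q, ρ, fun p hp => ?_, fun A _ F => ?_, fun v => ?_⟩
  · obtain ⟨a1, a2, -, w, hw, a3⟩ := h1 p hp
    exact ⟨(adm_iff _).2 a1, a2.1, ⟨fun u hu => Or.inl (a2.1 u hu), a2.2⟩, w, hw, by
      rw [constantPart_eq]; exact a3⟩
  · rw [h2 A F]
    refine Finset.sum_congr rfl fun p _ => ?_
    rw [stuffles_eq]
    rfl
  · rw [mzv_fun]
    exact h3 v

theorem rel_of_ideal {k : ℕ} {Λ : Finset (List (Letter k))} {c : List (Letter k) → ℤ}
    (h : InIdeal Λ c) (s : Fin k → ℕ) (hs : ∀ j, 2 ≤ s j) : ∑ w ∈ Λ, (c w : ℝ) * mzv (index s w) = 0 := by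
  classical
  obtain ⟨Q, ρ, hQ, hF, hv⟩ := h
  have h1 := hF ℝ fun w => mzv (index s w)
  simp only [zsmul_eq_mul] at h1
  rw [h1]
  rw [mzv_fun] at hv ⊢
  have h2 : ∀ p ∈ Q, ((stuffles (fixed p.1) p.2).map fun w => Pool.Agent.Y760.ZG.mz (index s w)).sum =
      Pool.Agent.Y760.ZG.mz p.1 * Pool.Agent.Y760.ZG.mz (index s p.2) := by
    intro p hp
    obtain ⟨g1, g2, g3, _⟩ := hQ p hp
    have h2 := Pool.Agent.N665.LP.mz_mul' ((adm_iff _).1 g1) (Pool.Agent.X90.DC.ix_Ad hs ⟨g2, g3.2⟩)
    have h3 : Pool.Agent.Y760.ZF.sti p.1 (Pool.Agent.X90.DB.ix s p.2) =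
        (Pool.Agent.X90.DC.psti (Pool.Agent.X90.DC.fp p.1) p.2).map (Pool.Agent.X90.DB.ix s) := by
      rw [← Pool.Agent.X90.DC.ix_psti, Pool.Agent.X90.DC.ix_fp]
    rw [h3, List.map_map] at h2
    rw [stuffles_eq]
    exact h2.symm
  rw [Finset.sum_congr rfl fun p hp => by rw [h2 p hp],
    ← Finset.sum_fiberwise_of_maps_to (t := Q.image Prod.snd) (g := Prod.snd)
    (fun p hp => Finset.mem_image_of_mem _ hp)]
  refine Finset.sum_eq_zero fun v _ => ?_
  have h4 : ∑ p ∈ Q with p.2 = v, (ρ p : ℝ) * (Pool.Agent.Y760.ZG.mz p.1 * Pool.Agent.Y760.ZG.mz (index s p.2)) =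
      (∑ p ∈ Q with p.2 = v, (ρ p : ℝ) * Pool.Agent.Y760.ZG.mz p.1) * Pool.Agent.Y760.ZG.mz (index s v) := by
    rw [Finset.sum_mul]
    refine Finset.sum_congr rfl fun p hp => ?_
    rw [(Finset.mem_filter.1 hp).2]
    ring
  rw [h4, hv v, zero_mul]

theorem hoffman_front : FrontSet Hoffman :=
  ⟨fun _ ha => absurd ha List.not_mem_nil, fun q hq => (adm_iff q).2 (Pool.Agent.U553.HY.h23_ad q hq),
    Pool.Agent.U553.HY.h23_cl⟩

/-- **Theorem.** (1) The values of different growing patterns are linearly independent over the space spanned by arbitrary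
complex numbers `x_1, ..., x_t`, for coefficients of exponential height, off few hyperplanes, whose number does not depend on
the `x_i`. (2) Off few hyperplanes each relation of exponential height between the values of patterns is in the ideal of the
stuffle algebra of patterns which is generated by the relations between constants; conversely the elements of this ideal are
relations at all tuples. (3) The words in `2`, `3` of each weight have linearly independent values if and only if different
patterns of one weight whose constant parts are words in `2`, `3` are independent off few hyperplanes. -/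
theorem result :
    -- (1) freeness over arbitrary constants
    (∀ (k m t : ℕ) (v : Fin m → List (Letter k)), Function.Injective v →
      (∀ j, AdmissiblePattern (v j) ∧ Growing (v j)) → ∀ κ : ℕ, ∃ K : ℕ, ∀ (C : ℝ) (x : Fin t → ℂ),
      ∃ N₀ : ℕ, ∀ N : ℕ, N₀ ≤ N → OnHyperplanes K {s : Fin k → ℕ | s ∈ Range v κ N ∧
        ∃ ρ : Fin m → Fin t → ℤ, (∀ j i, |(ρ j i : ℝ)| ≤ C ^ N) ∧
          ∑ j, (∑ i, (ρ j i : ℂ) * x i) * (mzv (index s (v j)) : ℂ) = 0 ∧ ∃ j, ∑ i, (ρ j i : ℂ) * x i ≠ 0}) ∧
    -- (2) the relations between patterns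
    (∀ (k : ℕ) (Λ : Finset (List (Letter k))), (∀ w ∈ Λ, AdmissiblePattern w) → ∀ κ : ℕ, ∃ K : ℕ, ∀ C : ℝ,
      ∃ N₀ : ℕ, ∀ N : ℕ, N₀ ≤ N → OnHyperplanes K {s : Fin k → ℕ | (∀ j, 2 ≤ s j ∧ s j ≤ κ * N) ∧
        (∀ w ∈ Λ, LargeFirst N s w) ∧ ∃ c : List (Letter k) → ℤ, (∀ w ∈ Λ, |(c w : ℝ)| ≤ C ^ N) ∧
          ∑ w ∈ Λ, (c w : ℝ) * mzv (index s w) = 0 ∧ ¬ InIdeal Λ c}) ∧
    (∀ (k : ℕ) (Λ : Finset (List (Letter k))) (c : List (Letter k) → ℤ), InIdeal Λ c →
      ∀ s : Fin k → ℕ, (∀ j, 2 ≤ s j) → ∑ w ∈ Λ, (c w : ℝ) * mzv (index s w) = 0) ∧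
    -- (3) the words in `2`, `3`
    ((∀ n, LinearIndependent ℚ fun q : {q : List ℕ // q ∈ Hoffman ∧ q.sum = n} => mzv q.1) ↔
      ∀ (k r : ℕ) (w : Fin r → List (Letter k)), Function.Injective w → SameWeight w →
        (∀ i, AdmissiblePattern (w i) ∧ constantPart (w i) ∈ Hoffman) → OffHyperplanes w (Independent w)) := by
  refine ⟨fun k m t v hinj hv κ => ?_, fun k Λ hΛ κ => ?_, fun k Λ c h s hs => rel_of_ideal h s hs, ?_⟩
  · rw [mzv_fun]
    exact Pool.Agent.U553.HY.freeH t v (fun j => ⟨(hv j).2, (hv j).1.2⟩) hinj κ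
  · obtain ⟨K, hK⟩ := Pool.Agent.U553.HY.idealH Λ hΛ κ
    refine ⟨K, fun C => ?_⟩
    obtain ⟨N₀, hN₀⟩ := hK C
    refine ⟨N₀, fun N hN => (hN₀ N hN).mono ?_⟩
    rintro s ⟨h1, h2, c, h3, h4, h5⟩
    rw [mzv_fun] at h4
    exact ⟨h1, h2, c, h3, h4, fun h => h5 (ideal_of h)⟩
  · simp only [ind_iff, constantPart_eq, mzv_fun]
    exact (coreW Hoffman (fun q hq => (adm_iff q).1 (hoffman_front.2.1 q hq)) hoffman_front.2.2).out 0 1

end Pool.Agent.Results.MP_f3dc73_nt.FreeOverConstants
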