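import Mathlib
import Pool.Agent.U623.HF.Meas

/-!
# MP_f3dc73_nt: multiple zeta values with a common last part are independent over `ℤ[π²]` in bounded height

By Q1 the algebra of multiple zeta values is free over `ℚ[π²]`. Let `U` be a finite set of admissible words (of
any weights). Let `ζ(u a s)`, `u ∈ U`, be the multiple zeta values in which the letters of the word `a s` belong to
the smallest summation variables.

(1) For real numbers `c_u`, not all zero (for instance `c_u` in the algebra of multiple zeta values), the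
combination `∑ c_u ζ(u a s)` is different from `0` for all words `a s` of length at least `n0(c)`.

(2) For every `d` there are `κ > 0`, `E`, `J` such that for all words `a s`, all `h ≥ 1` with
`h ^ E ≤ κ · length (a s)` and all polynomials `P_u ∈ ℤ[X]` of degree at most `d` and coefficients at most `h`,
not all zero, `|∑ P_u(π²) ζ(u a s)| ≥ κ h ^ (-E) ζ(a + J, s) > 0`.

The proof: the tails `T_u(m)` have asymptotic expansions in `1 / m` with rational coefficients and are linearly
independent over the rational functions of `m` modulo functions which decrease faster than all powers of `m`. For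
`(2)` the first nonzero coefficient of the expansion is the value at `π²` of a polynomial with bounded
degree and denominators, and it is not small by a transcendence measure of `π` (library `TH456`).
-/

set_option autoImplicit false

namespace Pool.Agent.Results.MP_f3dc73_nt.FreeOverPiSquared

/-- the multiple zeta value of the list `l`; the first entry belongs to the largest summation variable: in the
notation of the problem `mzv [n_m, …, n_1] = ζ(n_1, …, n_m)` -/
noncomputable def mzv (l : List ℕ) : ℝ :=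
  ∑' m : {m : Fin l.length → ℕ // StrictAnti m ∧ ∀ i, 0 < m i}, ∏ i, ((m.1 i : ℝ) ^ (l.get i))⁻¹

/-- the letters are positive and the first letter (if there is one) is at least two -/
def Admissible (u : List ℕ) : Prop := (∀ x ∈ u, 1 ≤ x) ∧ ∀ x ∈ u.head?, 2 ≤ x

lemma adm_iff {u : List ℕ} (h : Admissible u) : Pool.Agent.H447R2.MZ.Adm u := by
  refine ⟨h.1, fun a t hu => h.2 a ?_⟩
  rw [hu]
  rfl

lemma mzv_eq {l : List ℕ} (hl : Pool.Agent.H447R2.MZ.Adm l) : mzv l = Pool.Agent.H447R2.MZ.val l := by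
  have h1 := Pool.Agent.H447R2.MZ.hasSum_val l.length l.get (by rw [List.ofFn_get]; exact hl)
  rw [List.ofFn_get] at h1
  exact h1.tsum_eq

lemma adm_app {u : List ℕ} (hu : Admissible u) {a : ℕ} {s : List ℕ} (ha : 1 ≤ a) (hs : ∀ x ∈ s, 1 ≤ x)
    (h0 : u = [] → 2 ≤ a) : Pool.Agent.H447R2.MZ.Adm (u ++ a :: s) := by
  refine ⟨fun x hx => ?_, fun b t hb => ?_⟩
  · rw [List.mem_append, List.mem_cons] at hx
    rcases hx with hx | rfl | hx
    · exact hu.1 x hx
    · exact ha
    · exact hs x hx
  · cases u with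
    | nil =>
      rw [List.nil_append, List.cons.injEq] at hb
      rw [← hb.1]
      exact h0 rfl
    | cons c u =>
      rw [List.cons_append, List.cons.injEq] at hb
      rw [← hb.1]
      exact hu.2 c rfl

/-- **Theorem.** Let `U` be a finite set of admissible words.
(1) For all real `c_u`, `u ∈ U`, not all zero, there is `n0` such that `∑ c_u ζ(u a s) ≠ 0` for all words `a s` in
positive integers (with `a ≥ 2` if the empty word is in `U`) of length at least `n0`.
(2) For every `d` there are `κ > 0`, `E ≥ 1`, `J ≥ 1` such that for all these words `a s`, all real `h ≥ 1` with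
`h ^ E ≤ κ · length (a s)` and all `P_u ∈ ℤ[X]`, `u ∈ U`, not all zero, of degree at most `d` and with coefficients
at most `h` in absolute value, `|∑ P_u(π²) ζ(u a s)| ≥ κ h ^ (-E) ζ(a + J, s) > 0`. -/
theorem result (U : Finset (List ℕ)) (hU : ∀ u ∈ U, Admissible u) :
    (∀ c : List ℕ → ℝ, (∃ u ∈ U, c u ≠ 0) → ∃ n0 : ℕ, ∀ (a : ℕ) (s : List ℕ), 1 ≤ a →
      (∀ x ∈ s, 1 ≤ x) → (([] : List ℕ) ∈ U → 2 ≤ a) → n0 ≤ (a :: s).length →
        ∑ u ∈ U, c u * mzv (u ++ a :: s) ≠ 0) ∧
    (∀ d : ℕ, ∃ κ E : ℝ, 0 < κ ∧ 1 ≤ E ∧ ∃ J : ℕ, 1 ≤ J ∧ ∀ (a : ℕ) (s : List ℕ), 1 ≤ a →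
      (∀ x ∈ s, 1 ≤ x) → (([] : List ℕ) ∈ U → 2 ≤ a) → ∀ (P : List ℕ → Polynomial ℤ) (h : ℝ), 1 ≤ h →
      h ^ E ≤ κ * (a :: s).length →
      (∀ u ∈ U, (P u).natDegree ≤ d ∧ ∀ i, |((P u).coeff i : ℝ)| ≤ h) → (∃ u ∈ U, P u ≠ 0) →
        0 < mzv ((a + J) :: s) ∧ κ * h ^ (-E) * mzv ((a + J) :: s) ≤
          |∑ u ∈ U, Polynomial.aeval (Real.pi ^ 2) (P u) * mzv (u ++ a :: s)|) := by
  constructor
  · intro c hc
    obtain ⟨n0, h⟩ := Pool.Agent.U623.HF.realR U (fun u hu => adm_iff (hU u hu)) c hc
    refine ⟨n0, fun a s ha hs h0 hn => ?_⟩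
    have hadm : ∀ u ∈ U, Pool.Agent.H447R2.MZ.Adm (u ++ a :: s) := fun u hu =>
      adm_app (hU u hu) ha hs fun h => h0 (h ▸ hu)
    have h1 := h a s ha hs hadm (by simpa using hn)
    rwa [Finset.sum_congr rfl fun u hu => by rw [mzv_eq (hadm u hu)]]
  · intro d
    obtain ⟨κ, E, hκ, hE, J, hJ, h⟩ := Pool.Agent.U623.HF.measR _ (Pool.Agent.U623.HF.LMe_pi d) U
      fun u hu => adm_iff (hU u hu)
    refine ⟨κ, E, hκ, hE, J, hJ, fun a s ha hs h0 P H hH hlen hP hne => ?_⟩
    have hadm : ∀ u ∈ U, Pool.Agent.H447R2.MZ.Adm (u ++ a :: s) := fun u hu =>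
      adm_app (hU u hu) ha hs fun h => h0 (h ▸ hu)
    have hadm' : Pool.Agent.H447R2.MZ.Adm ((a + J) :: s) := by
      refine ⟨fun x hx => ?_, fun b t hb => ?_⟩
      · rw [List.mem_cons] at hx
        rcases hx with rfl | hx
        · omega
        · exact hs x hx
      · rw [List.cons.injEq] at hb
        omega
    obtain ⟨h1, h2⟩ := h a s ha hs hadm (fun u i => (P u).coeff (i : ℕ)) H hH
      (fun u hu i => (hP u hu).2 i) (by
        obtain ⟨u, hu, hPu⟩ := hne
        refine ⟨u, hu, ⟨(P u).natDegree, Nat.lt_succ_of_le (hP u hu).1⟩, ?_⟩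
        simpa using hPu) (by
        rw [List.length_cons] at hlen
        push_cast at hlen
        exact hlen)
    rw [mzv_eq hadm']
    refine ⟨h1, h2.trans (le_of_eq ?_)⟩
    congr 1
    refine Finset.sum_congr rfl fun u hu => ?_
    rw [mzv_eq (hadm u hu)]
    congr 1
    rw [Polynomial.aeval_eq_sum_range' (Nat.lt_succ_of_le (hP u hu).1), Finset.sum_range]
    refine Finset.sum_congr rfl fun i _ => ?_
    rw [zsmul_eq_mul]

end Pool.Agent.Results.MP_f3dc73_nt.FreeOverPiSquared
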