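import Pool.Agent.U553.LY.E
import Pool.Agent.U553.DL.Glob

/-!
# MP_f3dc73_nt: multiple zeta values at Lyndon words with large first letter, over arbitrary constants

Order the letters `1, 2, 3, ...` by `1 > 2 > 3 > ...`. A word `w` is a Lyndon word for this order if it is not empty and comes
before each of its proper suffixes in the lexicographic order. The first letter of such a word is its largest number; for
instance all words whose first letter is larger than the other letters are Lyndon words, and `(p, p, q)`, `p > q`, is one. By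
the theorem of Radford and Hoffman every word is in one way a polynomial in the Lyndon words, with respect to the stuffle
product, and if the first letter of the word is at least `N`, then this holds for the Lyndon words too: so the multiple
zeta values `ζ(w)` at the Lyndon words with first letter at least `N` generate the algebra which is spanned by all `ζ(w)` whose
first letter is at least `N`. This file shows that they are free generators, for relations of bounded degree between a
bounded number of them and with coefficients at most `C ^ N`, also over arbitrary complex constants.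

The Lyndon words have at most `ℓ` letters, all letters are in `[1, κ N]`, and the first letter is at least `N`. The
constants are fixed algebraic numbers `α_i` and arbitrary complex numbers `x_1, ..., x_t`, for example
multiple zeta values of bounded weight, or some multiple zeta values of arbitrary weight. Relations have degree at most `D` and
integer coefficients of absolute value at most `C ^ N`. Let `N` be large, uniformly in the `x_j`.

(1) There is a set `T` of at most `t` exceptional Lyndon words (in all) such that for every other Lyndon word `w` the number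
`ζ(w)` is not algebraic over the constants and at most `m` values at Lyndon words which come before `w` in a given linear order
of the words (any order, for instance by depth or by weight; the earlier words may be exceptional): each relation between
these numbers and `ζ(w)` is trivial in `ζ(w)`, it holds for all complex numbers in place of `ζ(w)`. In particular the
values at any `m + 1` Lyndon words outside `T` satisfy only trivial relations over the constants.

(2) For `t = 0`: no nonzero polynomial of degree at most `D` and with integer coefficients of absolute value at most `C ^ N`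
vanishes at the values of at most `m + 1` Lyndon words (no constants, no exceptions).

(3) All the bounds may grow with `N`.

The proof: Lyndon words are algebraically independent in the stuffle algebra (the product of the factors of the Lyndon
factorization of `w` is `w` plus words which are shorter or smaller, and the quasi-monomial functions of commuting variables
show that words are linearly independent); so, by the linear independence of multiple zeta values with large first letters
(starting library, subspace theorem), the germs of the zeta values are algebraically independent over the ring of germs of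
integer sequences of exponential growth; the transcendence degree over the constants gives (1).
The first letter belongs to the largest summation variable.
-/

set_option autoImplicit false

namespace Pool.Agent.Results.MP_f3dc73_nt.LyndonWords

open Pool.Agent.U553.DL Pool.Agent.U553.LY

/-- `trunc [s_1, ..., s_r] m` is the sum of `∏ n_i ^ (-s_i)` over `m > n_1 > ... > n_r ≥ 1` -/
noncomputable def trunc : List ℕ → ℕ → ℝ
  | [], _ => 1
  | s :: l, m => ∑ j ∈ Finset.Ico 1 m, trunc l j / (j : ℝ) ^ s

/-- the multiple zeta value `ζ(s_1, ..., s_r)`, the sum of `∏ n_i ^ (-s_i)` over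
`n_1 > ... > n_r ≥ 1`; `ζ() = 1` -/
noncomputable def mzv : List ℕ → ℝ
  | [] => 1
  | s :: l => ∑' m : ℕ, trunc l (m + 1) / ((m + 1 : ℕ) : ℝ) ^ s

/-- Lyndon words for the order `1 > 2 > 3 > ...` of the letters: nonempty words which come before their proper suffixes -/
def IsLyndon (w : List ℕ) : Prop :=
  w ≠ [] ∧ ∀ u v : List ℕ, w = u ++ v → u ≠ [] → v ≠ [] → List.Lex (· > ·) w v

/-- at most `ℓ` letters, all in `[1, κ N]`, and the first letter is at least `N` -/
def InRange (κ ℓ N : ℕ) (w : List ℕ) : Prop :=
  w.length ≤ ℓ ∧ (∀ m ∈ w, 1 ≤ m ∧ m ≤ κ * N) ∧ ∀ m ∈ w.head?, N ≤ m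

/-- Every polynomial relation, of degree at most `D` and with integer coefficients of absolute value at most `H`, between the
numbers `u_i` and the numbers `ζ(w)`, `w ∈ S`, is trivial: it remains true if the latter are replaced by arbitrary
complex numbers. -/
def Independent {σ : Type} (u : σ → ℂ) (S : Finset (List ℕ)) (D : ℕ) (H : ℝ) : Prop :=
  ∀ P : MvPolynomial (σ ⊕ S) ℤ, P.totalDegree ≤ D → (∀ m, |((P.coeff m : ℤ) : ℝ)| ≤ H) →
    MvPolynomial.aeval (Sum.elim u fun w : S => ((mzv w : ℝ) : ℂ)) P = 0 →
    ∀ y : S → ℂ, MvPolynomial.aeval (Sum.elim u y) P = 0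

/-- There is a polynomial relation, of degree at most `D` and with integer coefficients of absolute value at most `H`, between
`ζ(w)`, the numbers `u_i` and the numbers `ζ(k)`, `k ∈ Λ`, which is not trivial in `ζ(w)`: it fails for some complex number
`y` in place of `ζ(w)`. -/
def Algebraic {σ : Type} (u : σ → ℂ) (Λ : Finset (List ℕ)) (w : List ℕ) (D : ℕ) (H : ℝ) : Prop :=
  ∃ P : MvPolynomial (Option (σ ⊕ Λ)) ℤ, P.totalDegree ≤ D ∧ (∀ m, |((P.coeff m : ℤ) : ℝ)| ≤ H) ∧
    MvPolynomial.aeval (fun o => o.elim ((mzv w : ℝ) : ℂ) (Sum.elim u fun k : Λ => ((mzv k : ℝ) : ℂ))) P = 0 ∧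
    ∃ y : ℂ, MvPolynomial.aeval (fun o => o.elim y (Sum.elim u fun k : Λ => ((mzv k : ℝ) : ℂ))) P ≠ 0

lemma trunc_eq : ∀ l m, trunc l m = Pool.Agent.Y760.ZG.hr l m := by
  intro l
  induction l with
  | nil => intro m; rw [trunc, Pool.Agent.Y760.ZG.hr]
  | cons s l ih =>
    intro m
    rw [trunc, Pool.Agent.Y760.ZG.hr]
    exact Finset.sum_congr rfl fun j _ => by rw [ih]

lemma mzv_eq : ∀ l, mzv l = Pool.Agent.Y760.ZG.mz l := by
  intro l
  cases l with
  | nil => rw [mzv, Pool.Agent.Y760.ZG.mz]
  | cons s l =>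
    rw [mzv, Pool.Agent.Y760.ZG.mz]
    exact tsum_congr fun k => by rw [trunc_eq]

lemma independent_iff {σ : Type} (u : σ → ℂ) (S : Finset (List ℕ)) (D : ℕ) (H : ℝ) :
    Independent u S D H ↔ IndX u (fun w => ((Pool.Agent.Y760.ZG.mz w : ℝ) : ℂ)) S D H := by
  rw [Independent, IndX]
  simp only [mzv_eq]

lemma algebraic_iff {σ : Type} (u : σ → ℂ) (Λ : Finset (List ℕ)) (w : List ℕ) (D : ℕ) (H : ℝ) :
    Algebraic u Λ w D H ↔ DepX u (fun w => ((Pool.Agent.Y760.ZG.mz w : ℝ) : ℂ)) Λ w D H := by
  unfold Algebraic DepX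
  simp only [mzv_eq]

lemma lyndon_iff (κ ℓ N : ℕ) (w : List ℕ) :
    IsLyndon w ∧ InRange κ ℓ N w ↔ Lyn w ∧ InR N (κ * N) ℓ w := by
  rw [Lyn_iff]
  exact Iff.rfl

lemma aeval_ofReal {σ : Type} (g : σ → ℝ) (P : MvPolynomial σ ℤ) :
    MvPolynomial.aeval (fun i => ((g i : ℝ) : ℂ)) P = ((MvPolynomial.aeval g P : ℝ) : ℂ) := by
  induction P using MvPolynomial.induction_on with
  | C a => simp
  | add p q hp hq => simp only [map_add, hp, hq, Complex.ofReal_add]
  | mul_X p i hp => simp only [map_mul, hp, MvPolynomial.aeval_X, Complex.ofReal_mul]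

/-- the main theorem -/
theorem main (m ℓ κ a t D : ℕ) (C : ℝ) (α : Fin a → ℂ) (hα : ∀ i, IsAlgebraic ℤ (α i)) :
    ∃ N₀ : ℕ, ∀ N : ℕ, N₀ ≤ N → ∀ (L : LinearOrder (List ℕ)) (x : Fin t → ℂ),
      ∃ T : Finset (List ℕ), T.card ≤ t ∧
      (∀ w, IsLyndon w → InRange κ ℓ N w → w ∉ T → ∀ Λ : Finset (List ℕ), Λ.card ≤ m →
        (∀ k ∈ Λ, IsLyndon k ∧ InRange κ ℓ N k ∧ L.lt k w) → ¬ Algebraic (Sum.elim α x) Λ w D (C ^ N)) ∧
      ∀ S : Finset (List ℕ), S.card ≤ m + 1 → (∀ w ∈ S, IsLyndon w ∧ InRange κ ℓ N w ∧ w ∉ T) →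
        Independent (Sum.elim α x) S D (C ^ N) := by
  obtain ⟨N₀, h0⟩ := globW m ℓ κ a t D C α hα
  refine ⟨N₀ + 2, fun N hN L x => ?_⟩
  have hU : ∀ w, w ∈ (finite_InR N (κ * N) ℓ).toFinset ↔ IsLyndon w ∧ InRange κ ℓ N w := by
    intro w
    rw [lyndon_iff, Set.Finite.mem_toFinset]
    exact Iff.rfl
  obtain ⟨T, h1, h2, h3, h4⟩ := @h0 N (by omega) (List ℕ) L (fun w => w) (finite_InR N (κ * N) ℓ).toFinset
    (fun w hw => by
      obtain ⟨-, h2, h3, h4⟩ := (hU w).1 hw
      refine ⟨h2, fun m hm => ⟨(h3 m hm).1, ?_⟩, h4⟩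
      have := (h3 m hm).2
      exact_mod_cast this)
    (fun w hw => by
      obtain ⟨h1, h2, h3, h4⟩ := (hU w).1 hw
      have h5 := h1.1
      cases w with
      | nil => exact absurd rfl h5
      | cons b w =>
        have h6 := h4 b rfl
        exact ⟨by omega, fun c hc => (h3 c (List.mem_cons_of_mem _ hc)).1⟩)
    (fun k s hs hmem => FI_lyn hs fun i => ((lyndon_iff κ ℓ N (s i)).1 ((hU _).1 (hmem i))).1) x
  refine ⟨T, h2, fun w hw hwR hwT Λ hΛc hΛ hA => ?_, fun S hSc hS => ?_⟩
  · exact h3 w ((hU w).2 ⟨hw, hwR⟩) hwT Λ (fun k hk => (hU k).2 ⟨(hΛ k hk).1, (hΛ k hk).2.1⟩) hΛc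
      (fun k hk => (hΛ k hk).2.2) ((algebraic_iff _ _ _ _ _).1 hA)
  · refine (independent_iff _ _ _ _).2 (h4 S (fun w hw => (hU w).2 ⟨(hS w hw).1, (hS w hw).2.1⟩) hSc ?_)
    exact Finset.disjoint_left.2 fun w hw => (hS w hw).2.2

/-- **Theorem.** Constants are `a` fixed algebraic numbers `α_i` and `t` arbitrary complex numbers `x_j`. All statements are
for large `N`, uniform in the `x_j`, and the Lyndon words have at most `ℓ` letters, which are in `[1, κ N]`, and the
first letter is at least `N`. Let `L` be any linear order of the words.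
(1) There are at most `t` exceptional Lyndon words. If `w` is not exceptional, then `ζ(w)` is not algebraic over the constants
and at most `m` values at Lyndon words before `w`. The values at at most `m + 1` Lyndon words which are not exceptional
are independent over the constants.
(2) No nonzero integer polynomial vanishes at the values of at most `m + 1` Lyndon words.
(3) All the bounds can be replaced by a function of `N` which tends to infinity. -/
theorem result :
    (∀ (m ℓ κ a t D : ℕ) (C : ℝ) (α : Fin a → ℂ), (∀ i, IsAlgebraic ℚ (α i)) → ∃ N₀ : ℕ, ∀ N : ℕ, N₀ ≤ N →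
      ∀ (L : LinearOrder (List ℕ)) (x : Fin t → ℂ), ∃ T : Finset (List ℕ), T.card ≤ t ∧
      (∀ w, IsLyndon w → InRange κ ℓ N w → w ∉ T → ∀ Λ : Finset (List ℕ), Λ.card ≤ m →
        (∀ k ∈ Λ, IsLyndon k ∧ InRange κ ℓ N k ∧ L.lt k w) → ¬ Algebraic (Sum.elim α x) Λ w D (C ^ N)) ∧
      ∀ S : Finset (List ℕ), S.card ≤ m + 1 → (∀ w ∈ S, IsLyndon w ∧ InRange κ ℓ N w ∧ w ∉ T) →
        Independent (Sum.elim α x) S D (C ^ N)) ∧
    (∀ (m ℓ κ D : ℕ) (C : ℝ), ∃ N₀ : ℕ, ∀ N : ℕ, N₀ ≤ N → ∀ S : Finset (List ℕ), S.card ≤ m + 1 →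
      (∀ w ∈ S, IsLyndon w ∧ InRange κ ℓ N w) → ∀ P : MvPolynomial S ℤ, P ≠ 0 → P.totalDegree ≤ D →
        (∀ m, |((P.coeff m : ℤ) : ℝ)| ≤ C ^ N) → MvPolynomial.aeval (fun w : S => mzv w) P ≠ 0) ∧
    (∃ ω : ℕ → ℕ, Filter.Tendsto ω Filter.atTop Filter.atTop ∧ ∀ N t : ℕ, t ≤ ω N →
      ∀ x : Fin t → ℂ, ∃ T : Finset (List ℕ), T.card ≤ t ∧ ∀ S : Finset (List ℕ), S.card ≤ ω N →
      (∀ w ∈ S, IsLyndon w ∧ InRange (ω N) (ω N) N w ∧ w ∉ T) → Independent x S (ω N) ((ω N : ℝ) ^ N)) := by
  classical
  have hZ : ∀ z : ℂ, IsAlgebraic ℚ z → IsAlgebraic ℤ z := fun z hz => by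
    exact (IsFractionRing.isAlgebraic_iff ℤ ℚ ℂ).2 hz
  refine ⟨fun m ℓ κ a t D C α hα => main m ℓ κ a t D C α fun i => hZ _ (hα i), ?_, ?_⟩
  · intro m ℓ κ D C
    obtain ⟨N₀, h0⟩ := main m ℓ κ 0 0 D C (fun i => i.elim0) (fun i => i.elim0)
    refine ⟨N₀, fun N hN S hS hSN P hP hPD hPC hP0 => ?_⟩
    obtain ⟨T, h2, -, h4⟩ := h0 N hN inferInstance (fun i => i.elim0)
    have h5 : T = ∅ := Finset.card_eq_zero.1 (by omega)
    subst h5
    obtain ⟨c, hc⟩ := Pool.Agent.X90.DC.exists_nonzero P hP
    refine hc ?_
    have h6 := h4 S hS (fun w hw => ⟨(hSN w hw).1, (hSN w hw).2, Finset.notMem_empty _⟩)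
      (MvPolynomial.rename Sum.inr P) ((MvPolynomial.totalDegree_rename_le _ _).trans hPD)
      (height_rename _ Sum.inr_injective hPC) (by
        rw [MvPolynomial.aeval_rename]
        rw [Sum.elim_comp_inr, aeval_ofReal, hP0, Complex.ofReal_zero]) c
    rw [MvPolynomial.aeval_rename] at h6
    exact h6
  · set p : ℕ → ℕ → Prop := fun m N => ∀ t : ℕ, t ≤ m → ∀ x : Fin t → ℂ,
      ∃ T : Finset (List ℕ), T.card ≤ t ∧ ∀ S : Finset (List ℕ), S.card ≤ m →
      (∀ w ∈ S, IsLyndon w ∧ InRange m m N w ∧ w ∉ T) → Independent x S m ((m : ℝ) ^ N) with hp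
    have hp0 : ∀ N, p 0 N := by
      intro N t _ x
      refine ⟨∅, by simp, fun S hS _ => ?_⟩
      have hS0 : S = ∅ := Finset.card_eq_zero.1 (by omega)
      subst hS0
      exact (independent_iff _ _ _ _).2 (IndX_empty x _ _ _)
    have hpm : ∀ m, ∃ N₀, ∀ N, N₀ ≤ N → p m N := by
      intro m
      choose N₀ h0 using fun t => main m m m 0 t m (m : ℝ) (fun i => i.elim0) (fun i => i.elim0)
      refine ⟨∑ t ∈ Finset.range (m + 1), N₀ t, fun N hN t ht x => ?_⟩
      have h2 : N₀ t ≤ N := (Finset.single_le_sum (f := N₀) (fun _ _ => Nat.zero_le _)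
        (Finset.mem_range.2 (by omega))).trans hN
      obtain ⟨T, h3, -, h5⟩ := h0 t N h2 inferInstance x
      refine ⟨T, h3, fun S hS hSN P hPD hPC hP0 y => ?_⟩
      have h6 := h5 S (by omega) hSN (MvPolynomial.rename (Sum.map Sum.inr id) P)
        ((MvPolynomial.totalDegree_rename_le _ _).trans hPD)
        (height_rename _ (Sum.inr_injective.sumMap Function.injective_id) hPC) (by
          rw [MvPolynomial.aeval_rename, ← hP0]
          congr 2
          funext i
          rcases i with i | i <;> rfl) y
      rw [MvPolynomial.aeval_rename] at h6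
      rw [← h6]
      congr 2
      funext i
      rcases i with i | i <;> rfl
    refine ⟨fun N => Nat.findGreatest (fun m => p m N) N, ?_, fun N t ht x => ?_⟩
    · refine Filter.tendsto_atTop.2 fun m => ?_
      obtain ⟨N₀, h2⟩ := hpm m
      refine Filter.eventually_atTop.2 ⟨max m N₀, fun N hN => ?_⟩
      exact Nat.le_findGreatest (le_of_max_le_left hN) (h2 N (le_of_max_le_right hN))
    · have h2 : p (Nat.findGreatest (fun m => p m N) N) N :=
        Nat.findGreatest_spec (P := fun m => p m N) (Nat.zero_le N) (hp0 N)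
      exact h2 t ht x

end Pool.Agent.Results.MP_f3dc73_nt.LyndonWords
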